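import Pool.Agent.Helper75.Full.E3a

/-!
Packet E3 of MP_ac806c_lc: `StmtE3`.
-/

set_option autoImplicit false
set_option linter.unusedSectionVars false

namespace Pool.Agent.Helper75.Full

open Pool.Agent.Helper30.Full

universe u

variable {p : ℕ} [Fact p.Prime] {d : ℕ} {X : Type u} [AddCommGroup X] [TopologicalSpace X]
  {b : Act p d X}

/-- the clusters -/
structure Clu (b : Act p d X) (g : Fin d → ℤ_[p]) (m : ℕ) (β : ℕ → ℕ) (N : ℕ → ℕ) (e : ℕ → X) :
    Prop where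
  b0 : 2 * m + 1 ≤ β 0
  bs : ∀ i, β i + 6 * m + 5 ≤ β (i + 1)
  lo : ∀ i, p ^ (β i + 1) ≤ N i
  hi : ∀ i, N i < p ^ (β i + 2)
  kill : ∀ i, (b.T g ^ N i) (e i) = 0
  pure : ∀ i x, (b.T g ^ (N i - 1)) (e i) ≠ (b.T g ^ N i) x

lemma exists_clu (hP : PureE b) {g : Fin d → ℤ_[p]} (hg : g ≠ 0) (m : ℕ) :
    ∃ β N e, Clu b g m β N e := by
  have hp := (Fact.out : p.Prime)
  have h1 : ∀ B : ℕ, ∃ q : ℕ × ℕ × X, B ≤ q.1 ∧ p ^ (q.1 + 1) ≤ q.2.1 ∧ q.2.1 < p ^ (q.1 + 2) ∧
      (b.T g ^ q.2.1) q.2.2 = 0 ∧ ∀ x, (b.T g ^ (q.2.1 - 1)) q.2.2 ≠ (b.T g ^ q.2.1) x := by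
    intro B
    obtain ⟨n, hn, e, he1, he2⟩ := hP g hg (p ^ (B + 1))
    have hn0 : n + 1 ≠ 0 := by omega
    have l1 : p ^ Nat.log p (n + 1) ≤ n + 1 := Nat.pow_log_le_self p hn0
    have l2 : n + 1 < p ^ (Nat.log p (n + 1) + 1) := Nat.lt_pow_succ_log_self hp.one_lt _
    have l3 : B + 1 ≤ Nat.log p (n + 1) := Nat.le_log_of_pow_le hp.one_lt (by omega)
    obtain ⟨L, hL⟩ : ∃ L, Nat.log p (n + 1) = L + 1 := ⟨Nat.log p (n + 1) - 1, by omega⟩
    rw [hL] at l1 l2 l3
    refine ⟨(L, n + 1, e), by simp only; omega, l1, l2, he1, fun x => ?_⟩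
    simp only [Nat.add_sub_cancel]
    exact he2 x
  choose F hF using h1
  let S : ℕ → ℕ × ℕ × X := fun n => Nat.rec (F (2 * m + 1)) (fun _ q => F (q.1 + 6 * m + 5)) n
  have hS0 : S 0 = F (2 * m + 1) := rfl
  have hSs : ∀ i, S (i + 1) = F ((S i).1 + 6 * m + 5) := fun i => rfl
  have hS : ∀ i, ∃ B, S i = F B := by
    intro i
    cases i with
    | zero => exact ⟨_, hS0⟩
    | succ i => exact ⟨_, hSs i⟩
  refine ⟨fun i => (S i).1, fun i => (S i).2.1, fun i => (S i).2.2, ?_, ?_, ?_, ?_, ?_, ?_⟩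
  · show 2 * m + 1 ≤ (S 0).1
    rw [hS0]
    exact (hF _).1
  · intro i
    show (S i).1 + 6 * m + 5 ≤ (S (i + 1)).1
    rw [hSs]
    exact (hF _).1
  · intro i
    obtain ⟨B, hB⟩ := hS i
    simp only [hB]
    exact (hF B).2.1
  · intro i
    obtain ⟨B, hB⟩ := hS i
    simp only [hB]
    exact (hF B).2.2.1
  · intro i
    obtain ⟨B, hB⟩ := hS i
    simp only [hB]
    exact (hF B).2.2.2.1
  · intro i x
    obtain ⟨B, hB⟩ := hS i
    simp only [hB]
    exact (hF B).2.2.2.2 x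

section clu

variable {m : ℕ} {β N : ℕ → ℕ} {e : ℕ → X} {g : Fin d → ℤ_[p]}

lemma Clu.lt (hC : Clu b g m β N e) {i j : ℕ} (hij : i < j) : β i + 6 * m + 5 ≤ β j := by
  induction j with
  | zero => omega
  | succ j ih =>
    have := hC.bs j
    rcases Nat.lt_succ_iff_lt_or_eq.1 hij with h | h
    · have := ih h
      omega
    · subst h
      exact this

lemma Clu.le (hC : Clu b g m β N e) {i j : ℕ} (hij : i ≤ j) : β i ≤ β j := by
  rcases hij.lt_or_eq with h | h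
  · have := hC.lt h
    omega
  · rw [h]

lemma Clu.ge (hC : Clu b g m β N e) (i : ℕ) : 2 * m + 1 ≤ β i :=
  hC.b0.trans (hC.le (Nat.zero_le i))

/-- `lev k` is in the `i`-th cluster -/
def Cl (m : ℕ) (β : ℕ → ℕ) (k : Fin d → ℤ_[p]) (i : ℕ) : Prop :=
  Dv k (β i - m) ∧ ¬ Dv k (β i + 2 + m)

lemma Clu.uniq (hC : Clu b g m β N e) {k : Fin d → ℤ_[p]} {i j : ℕ} (hi : Cl m β k i)
    (hj : Cl m β k j) : i = j := by
  rcases lt_trichotomy i j with h | h | h
  · exfalso
    have := hC.lt h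
    exact hi.2 (hj.1.mono (by omega))
  · exact h
  · exfalso
    have := hC.lt h
    exact hj.2 (hi.1.mono (by omega))

lemma Clu.pure' (hC : Clu b g m β N e) (i : ℕ) (x : X) :
    (b.T g ^ (p ^ (β i + 1) - 1)) (e i) ≠ (b.T g ^ p ^ (β i + 1)) x := by
  intro h
  have hlo := hC.lo i
  have hpos : 0 < p ^ (β i + 1) := pow_pos (Fact.out : p.Prime).pos _
  apply hC.pure i x
  have e1 : (b.T g ^ (N i - 1)) (e i) = (b.T g ^ (N i - p ^ (β i + 1)))
      ((b.T g ^ (p ^ (β i + 1) - 1)) (e i)) := by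
    rw [← padd]
    congr 2
    omega
  rw [e1, h, ← padd]
  congr 2
  omega

end clu

section hd

variable {m : ℕ} {β N : ℕ → ℕ} {e : ℕ → X} {hd : 0 < d}

/-- (C1) -/
lemma Clu.c1 (hb : HypE b) (hU : UniE b m) (hC : Clu b (gg hd) m β N e) {k : Fin d → ℤ_[p]}
    {i : ℕ} (hk : Dv k (β i + 2 + m)) (n : ℕ) : (b.T (gg hd) ^ n) (e i) ∈ Dg b k := by
  apply Dg_of_zero
  have h1 := (domA hb hU (not_Dv_pgg (p := p) hd (β i + 2)) hk).2 (e i)
  have h2 : b.T k (e i) = 0 := by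
    apply h1
    rw [Tp hb, psub _ (hC.hi i).le, hC.kill, map_zero]
  rw [capp ((T_comm b k (gg hd)).pow_right n), h2, map_zero]

/-- (C2) for `y_i` -/
lemma Clu.c2 (hb : HypE b) (hU : UniE b m) (hC : Clu b (gg hd) m β N e) {k : Fin d → ℤ_[p]}
    {i : ℕ} (hk : ¬ Dv k (β i - m)) :
    (b.T (gg hd) ^ (p ^ β i * (p - 1) - 1)) (e i) ∈ Dg b k := by
  have hge := hC.ge i
  have hp := (Fact.out : p.Prime).two_le
  apply Dg_big (j := β i - m - 1) hb hd hU
  · rwa [show β i - m - 1 + 1 = β i - m by omega]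
  · rw [show β i - m - 1 + m = β i - 1 by omega]
    obtain ⟨B, hB⟩ : ∃ B, β i = B + 1 := ⟨β i - 1, by omega⟩
    rw [hB, Nat.add_sub_cancel]
    have hpos : 0 < p ^ B := pow_pos (by omega) _
    obtain ⟨r, hr⟩ : ∃ r, p = r + 1 := ⟨p - 1, by omega⟩
    have hr1 : 1 ≤ r := by omega
    have e1 : p ^ (B + 1) * (p - 1) = (p - 1) * p ^ B + (p - 1) * (p - 1) * p ^ B := by
      rw [pow_succ, hr, Nat.add_sub_cancel]
      ring
    rw [e1]
    have : 1 ≤ (p - 1) * (p - 1) * p ^ B := by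
      rw [hr, Nat.add_sub_cancel, ← hr]
      exact Nat.mul_pos (Nat.mul_pos hr1 hr1) hpos
    omega

/-- (C3) -/
lemma Clu.c3 (hb : HypE b) (hC : Clu b (gg hd) m β N e) (i : ℕ) :
    (b.T (gg hd) ^ (p ^ β i * (p - 1) - 1)) (e i) ∉ Dg b (p ^ β i • gg hd) := by
  intro h
  obtain ⟨z, hz⟩ := mem_Dg.1 h
  rw [Tp1 hb, Tp hb, ← pow_mul, ← padd] at hz
  have hp := (Fact.out : p.Prime).two_le
  have hpos : 0 < p ^ β i := pow_pos (by omega) _
  have e1 : p ^ β i + (p ^ β i * (p - 1) - 1) = p ^ (β i + 1) - 1 := by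
    obtain ⟨r, hr⟩ : ∃ r, p = r + 1 := ⟨p - 1, by omega⟩
    have hr1 : 1 ≤ r := by omega
    have h1 : 1 ≤ p ^ β i * r := Nat.mul_pos hpos hr1
    have h2' : ∀ P : ℕ, P * p = P * r + P := fun P => by rw [hr]; ring
    have h2 : p ^ (β i + 1) = p ^ β i * r + p ^ β i := by
      rw [pow_succ]
      exact h2' _
    rw [h2]
    have h3 : p - 1 = r := by omega
    rw [h3]
    omega
  rw [e1, ← pow_succ] at hz
  exact hC.pure' i z hz.symm

end hd

variable [IsTopologicalAddGroup X] [CompactSpace X] [T2Space X]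

theorem stmtE3 : StmtE3.{u} := by
  intro p _ d X _ _ _ _ _ b hb m hU hP
  have hp := (Fact.out : p.Prime)
  have hp2 := hp.two_le
  have hd := hb.pos
  obtain ⟨β, N, e, hC⟩ := exists_clu hP (gg_ne_zero (p := p) hd) m
  refine ⟨3 * m + 3, by omega, fun w => ?_⟩
  classical
  -- notation
  let y : ℕ → X := fun i => (b.T (gg hd) ^ (p ^ β i * (p - 1) - 1)) (e i)
  let yT : X := ∑ i ∈ Finset.range (w + 1), y i
  let v : ℕ → X := fun i => (b.T (gg hd) ^ (p ^ (β (i - 1) + 2 + 2 * m))) (e i)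
  let yV : X := ∑ i ∈ Finset.Icc 1 w, v i
  let ν : (Fin d → ℤ_[p]) → ℕ := fun k => if h : ∃ i ≤ w, Cl m β k i then h.choose else 0
  have hν : ∀ k i, i ≤ w → Cl m β k i → ν k = i := by
    intro k i hi hc
    have hex : ∃ i ≤ w, Cl m β k i := ⟨i, hi, hc⟩
    have h1 : ν k = hex.choose := dif_pos hex
    rw [h1]
    exact hC.uniq hex.choose_spec.2 hc
  -- elements `y j` with `j` different from the cluster of `k`
  have hyj : ∀ k i j, Cl m β k i → j ≠ i → y j ∈ Dg b k := by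
    intro k i j hc hj
    rcases lt_or_gt_of_ne hj with h | h
    · have := hC.lt h
      exact hC.c1 hb hU (hc.1.mono (by omega)) _
    · have := hC.lt h
      exact hC.c2 hb hU (fun h' => hc.2 (h'.mono (by omega)))
  -- the times
  have hII1 : ∀ k, II b (gg hd) 0 0 yT k → k ≠ 0 ∧ ∃ i ≤ w, Cl m β k i ∧ y i ∉ Dg b k := by
    intro k hk
    obtain ⟨_, _, h3, h4⟩ := hk
    have hk0 : k ≠ 0 := by
      rintro rfl
      exact h3 fun x => ⟨0, by rw [T_zero]; simp⟩
    refine ⟨hk0, ?_⟩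
    rw [DD_iff] at h4
    have hex : ∃ i ∈ Finset.range (w + 1), y i ∉ Dg b k := by
      by_contra hcon
      push Not at hcon
      exact h4 (AddSubgroup.sum_mem _ hcon)
    obtain ⟨i, hi, hyi⟩ := hex
    refine ⟨i, by simpa [Nat.lt_succ_iff] using hi, ⟨?_, ?_⟩, hyi⟩
    · by_contra h
      exact hyi (hC.c2 hb hU h)
    · intro h
      exact hyi (hC.c1 hb hU h _)
  have hII2 : ∀ k i, i ≤ w → Cl m β k i → y i ∉ Dg b k → II b (gg hd) 0 0 yT k := by
    intro k i hi hc hyi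
    have hk0 : k ≠ 0 := by
      rintro rfl
      exact hc.2 ⟨0, by simp⟩
    refine ⟨?_, ?_, ?_, ?_⟩
    · intro x
      have h1 := (domA hb hU (j := 0) (k := gg hd) (l := k) (not_Dv_gg hd)
        (hc.1.mono (by have := hC.ge i; omega))).1 1 x
      simpa using h1
    · intro x
      exact ⟨0, 0, by rw [T_zero]; simp⟩
    · intro h
      apply hk0
      apply hb.faith
      rw [σ_eq]
      have : b.T k = 0 := by
        ext x
        obtain ⟨z, hz⟩ := h x
        rw [hz, hb.kill]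
        rfl
      rw [this, zero_add]
    · rw [DD_iff]
      intro h
      apply hyi
      have e1 : yT = y i + ∑ j ∈ (Finset.range (w + 1)).erase i, y j := by
        rw [Finset.add_sum_erase]
        exact Finset.mem_range.2 (by omega)
      have h2 : ∑ j ∈ (Finset.range (w + 1)).erase i, y j ∈ Dg b k :=
        AddSubgroup.sum_mem _ fun j hj => hyj k i j hc (Finset.ne_of_mem_erase hj)
      have h3 : y i = yT - ∑ j ∈ (Finset.range (w + 1)).erase i, y j := by
        rw [e1]; abel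
      rw [h3]
      exact (Dg b k).sub_mem h h2
  -- the standard elements
  have hstdC : ∀ i, Cl m β (p ^ β i • gg (p := p) hd) i := by
    intro i
    exact ⟨Dv.mono ⟨gg hd, rfl⟩ (by omega), fun h => not_Dv_pgg hd (β i) (h.mono (by omega))⟩
  have hstd : ∀ i ≤ w, II b (gg hd) 0 0 yT (p ^ β i • gg hd) ∧ ν (p ^ β i • gg hd) = i := by
    intro i hi
    exact ⟨hII2 _ i hi (hstdC i) (hC.c3 hb i), hν _ i hi (hstdC i)⟩
  -- the cluster of an element of II
  have hIIν : ∀ k, II b (gg hd) 0 0 yT k → k ≠ 0 ∧ ν k ≤ w ∧ Cl m β k (ν k) := by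
    intro k hk
    obtain ⟨h0, i, hi, hc, _⟩ := hII1 k hk
    rw [hν k i hi hc]
    exact ⟨h0, hi, hc⟩
  -- the order
  have hBf : ∀ h k, II b (gg hd) 0 0 yT h → II b (gg hd) 0 0 yT k →
      (Bf b (3 * m + 3) h k ↔ ν h < ν k) := by
    intro h k hh hk
    obtain ⟨hh0, hhw, hhc⟩ := hIIν h hh
    obtain ⟨hk0, hkw, hkc⟩ := hIIν k hk
    generalize ν h = i at hhw hhc
    generalize ν k = i' at hkw hkc
    constructor
    · intro hbf
      by_contra hle
      push Not at hle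
      have hge := hC.ge i
      have hle' := hC.le hle
      have q1 : Dv (p ^ (3 * m + 3) • h) (3 * m + 3 + (β i - m)) := Dv_smul.2 hhc.1
      have q2 : ¬ Dv (p • k) (β i' + 2 + m + 1) := by
        intro hcon
        have : Dv (p ^ 1 • k) (1 + (β i' + 2 + m)) := by
          rw [pow_one, add_comm 1]
          exact hcon
        exact hkc.2 (Dv_smul.1 this)
      have q3 := (domA hb hU q2 (q1.mono (by omega))).1 1
      have q4 : ∀ x, ∃ z, b.T k x = b.T k (b.T k z) := by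
        intro x
        obtain ⟨y1, z1, h1⟩ := hbf x
        obtain ⟨y2, h2⟩ := q3 y1
        rw [pow_one, pow_one, Tp1 hb] at h2
        refine ⟨(b.T k ^ (p - 2)) y2, ?_⟩
        rw [h1, hb.kill, add_zero, h2]
        have e1 : (b.T k ^ p) y2 = (b.T k ^ (1 + (1 + (p - 2)))) y2 := by
          congr 2
          omega
        rw [e1, padd, padd, pow_one]
      have hnak := nakayama b k (AddMonoidHom.range (b.T k)) ⊥ (by
          rw [AddSubgroup.coe_bot]; exact isClosed_singleton) (by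
          intro z hz
          rw [AddSubgroup.mem_bot] at hz ⊢
          rw [hz, map_zero]) (by
          rintro _ ⟨x, rfl⟩
          obtain ⟨z, hz⟩ := q4 x
          refine ⟨0, AddSubgroup.zero_mem _, b.T k z, ⟨z, rfl⟩, 0, AddSubgroup.zero_mem _, ?_⟩
          rw [smul_zero, add_zero, zero_add]
          exact hz)
      apply hk0
      apply hb.faith
      rw [σ_eq]
      have : b.T k = 0 := by
        ext x
        have := hnak ⟨x, rfl⟩
        rw [AddSubgroup.mem_bot] at this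
        exact this
      rw [this, zero_add]
    · intro hlt x
      have := hC.lt hlt
      have q1 : ¬ Dv (p ^ (3 * m + 3) • h) (3 * m + 3 + (β i + 2 + m)) := by
        rw [Dv_smul]
        exact hhc.2
      obtain ⟨y1, h1⟩ := (domA hb hU (k := p ^ (3 * m + 3) • h) (l := k)
        (j := 3 * m + 3 + (β i + 1 + m))
        (by rwa [show 3 * m + 3 + (β i + 1 + m) + 1 = 3 * m + 3 + (β i + 2 + m) by omega])
        (hkc.1.mono (by omega))).1 1 x
      rw [pow_one, pow_one] at h1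
      exact ⟨y1, 0, by rw [h1, smul_zero, add_zero]⟩
  have hBf2 : ∀ h k, II b (gg hd) 0 0 yT h → II b (gg hd) 0 0 yT k →
      ((¬ Bf b (3 * m + 3) h k ∧ ¬ Bf b (3 * m + 3) k h) ↔ ν h = ν k) := by
    intro h k hh hk
    rw [hBf h k hh hk, hBf k h hk hh]
    omega
  -- (R1)
  have hR1 : ∀ k' b', Cl m β k' b' → ∀ i, 1 ≤ i → i ≠ b' → v i ∈ Dg b k' := by
    intro k' b' hc i hi hib
    rcases lt_or_gt_of_ne hib with h | h
    · have := hC.lt h
      exact hC.c1 hb hU (hc.1.mono (by omega)) _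
    · apply Dg_big (j := β b' + 1 + m) hb hd hU
      · exact fun h' => hc.2 (h'.mono (by omega))
      · have h1 : β b' ≤ β (i - 1) := hC.le (by omega)
        have h2 : p ^ (β b' + 1 + m + m) ≤ p ^ (β (i - 1) + 1 + 2 * m) :=
          Nat.pow_le_pow_right (by omega) (by omega)
        have h3 : p ^ (β (i - 1) + 2 + 2 * m) = p * p ^ (β (i - 1) + 1 + 2 * m) := by
          rw [← pow_succ']
          congr 1
          omega
        rw [h3]
        exact Nat.mul_le_mul (Nat.sub_le _ _) h2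
  refine ⟨gg hd, 0, 0, yT, yV, ν, fun k hk => (hIIν k hk).2.1,
    fun n hn => ⟨_, hstd n hn⟩, hBf, fun c hc => ?_⟩
  let xc : X := ∑ i ∈ Finset.Icc 1 w, b.σ (p ^ β (c i) • gg hd) (v i)
  refine ⟨xc, fun k h hk hh hkν => ?_⟩
  obtain ⟨hk0, hkw, hkc⟩ := hIIν k hk
  obtain ⟨hh0, hhw, hhc⟩ := hIIν h hh
  have hsum : ∀ h' : Fin d → ℤ_[p], xc - b.σ h' yV = ∑ i ∈ Finset.Icc 1 w,
      (b.σ (p ^ β (c i) • gg hd) (v i) - b.σ h' (v i)) := by
    intro h'
    rw [Finset.sum_sub_distrib]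
    congr 1
    exact map_sum _ _ _
  constructor
  · -- (R3)
    intro hRR
    by_contra hne
    obtain ⟨hk'1, hk'2⟩ := hstd (ν k) hkw
    have hb1 := (hBf2 k _ hk hk'1).2 hk'2.symm
    obtain ⟨h', hh'1, hh'2, hh'3, hh'4⟩ := hRR _ hk'1 hb1.1 hb1.2
    have hνh' : ν h = ν h' := (hBf2 h h' hh hh'1).1 ⟨hh'2, hh'3⟩
    obtain ⟨hh'0, hh'w, hh'c⟩ := hIIν h' hh'1
    rw [← hνh'] at hh'w hh'c
    rw [DD_iff, hsum] at hh'4
    have hcb := hc (ν k) hkν hkw
    generalize hbb : ν k = b' at *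
    generalize hcc : ν h = c' at *
    -- the term of index b'
    have hterm : b.σ (p ^ β (c b') • gg hd) (v b') - b.σ h' (v b') ∈ Dg b (p ^ β b' • gg hd) := by
      have hmem : b' ∈ Finset.Icc 1 w := Finset.mem_Icc.2 ⟨hkν, hkw⟩
      rw [← Finset.add_sum_erase _ _ hmem] at hh'4
      have h2 : ∑ i ∈ (Finset.Icc 1 w).erase b',
          (b.σ (p ^ β (c i) • gg hd) (v i) - b.σ h' (v i)) ∈ Dg b (p ^ β b' • gg hd) := by
        refine AddSubgroup.sum_mem _ fun i hi => ?_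
        have hi' := Finset.mem_Icc.1 (Finset.mem_of_mem_erase hi)
        have := hR1 _ b' (hstdC b') i hi'.1 (Finset.ne_of_mem_erase hi)
        exact (Dg b _).sub_mem (Dg_σ _ this) (Dg_σ _ this)
      have := (Dg b _).sub_mem hh'4 h2
      rwa [add_sub_cancel_right] at this
    let s := h' - p ^ β (c b') • gg hd
    have hs' : h' = p ^ β (c b') • gg hd + s := by
      show h' = p ^ β (c b') • gg hd + (h' - p ^ β (c b') • gg hd)
      abel
    have hTs : b.T s (v b') ∈ Dg b (p ^ β b' • gg hd) := by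
      have e1 : b.σ (p ^ β (c b') • gg hd) (v b') - b.σ h' (v b') =
          - b.σ (p ^ β (c b') • gg hd) (b.T s (v b')) := by
        have e2 : b.σ h' (v b') = b.σ (p ^ β (c b') • gg hd) (b.σ s (v b')) := by
          conv_lhs => rw [hs', b.add]
          rfl
        rw [e2, T_apply, map_sub]
        abel
      rw [e1] at hterm
      have h3 := Dg_σ (-(p ^ β (c b') • gg hd)) ((Dg b _).neg_mem hterm)
      rwa [neg_neg, σ_neg_apply] at h3
    -- the level of s
    have hle1 : β (c b') ≤ β (b' - 1) := hC.le (by omega)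
    have hlev : ¬ Dv s (β (b' - 1) + 1 + m + 1) := by
      intro hcon
      rcases lt_trichotomy c' (c b') with hlt | heq | hgt
      · have h5 := hC.lt hlt
        apply hh'c.2
        rw [hs']
        exact Dv.add (Dv.mono ⟨gg hd, rfl⟩ (by omega)) (hcon.mono (by omega))
      · exact hne heq
      · have h5 := hC.lt hgt
        apply not_Dv_pgg (p := p) hd (β (c b'))
        have h6 : p ^ β (c b') • gg (p := p) hd = h' - s := by
          rw [hs']; abel
        rw [h6]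
        exact Dv.sub (hh'c.1.mono (by omega)) (hcon.mono (by omega))
    have hdom := domA hb hU hlev (l := p ^ (β (b' - 1) + 1 + m + m) • gg hd) ⟨gg hd, rfl⟩
    obtain ⟨hd1, hd2⟩ := hdom
    obtain ⟨x, hx⟩ := mem_Dg.1 hTs
    have hblt := hC.lt (show b' - 1 < b' by omega)
    -- arithmetic
    have ar0 : β (b' - 1) + 2 + 2 * m + 2 ≤ β b' := by omega
    have ar1 : 8 * p ^ (β (b' - 1) + 1 + m + m) ≤ p ^ β b' := by
      have : p ^ (β (b' - 1) + 1 + m + m + 3) ≤ p ^ β b' :=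
        Nat.pow_le_pow_right (by omega) (by omega)
      rw [pow_add] at this
      have h8 : 8 ≤ p ^ 3 := by
        calc 8 = 2 ^ 3 := by norm_num
          _ ≤ p ^ 3 := Nat.pow_le_pow_left hp2 3
      nlinarith [pow_pos hp.pos (β (b' - 1) + 1 + m + m)]
    have ar2 : 4 * p ^ (β (b' - 1) + 2 + 2 * m) ≤ p ^ β b' := by
      have : p ^ (β (b' - 1) + 2 + 2 * m + 2) ≤ p ^ β b' :=
        Nat.pow_le_pow_right (by omega) (by omega)
      rw [pow_add] at this
      have h8 : 4 ≤ p ^ 2 := by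
        calc 4 = 2 ^ 2 := by norm_num
          _ ≤ p ^ 2 := Nat.pow_le_pow_left hp2 2
      nlinarith [pow_pos hp.pos (β (b' - 1) + 2 + 2 * m)]
    have ar3 : 2 * p ^ β b' ≤ p ^ (β b' + 1) := by
      rw [pow_succ, mul_comm]
      exact Nat.mul_le_mul_left _ hp2
    have ar4 : 0 < p ^ (β (b' - 1) + 1 + m + m) := pow_pos hp.pos _
    -- the equation
    have k1 : (b.T (gg hd) ^ p ^ (β b' + 1)) x =
        b.T s ((b.T (gg hd) ^ (p ^ β b' + p ^ (β (b' - 1) + 2 + 2 * m))) (e b')) := by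
      have e1 : b.T (p • p ^ β b' • gg hd) x = (b.T (gg hd) ^ p ^ (β b' + 1)) x := by
        rw [Tp1 hb, Tp hb, ← pow_mul, ← pow_succ]
      rw [← e1, hx, Tp hb]
      have e2 : ∀ z, (b.T (gg hd) ^ p ^ β b') (b.T s z) = b.T s ((b.T (gg hd) ^ p ^ β b') z) :=
        fun z => capp ((T_comm b (gg hd) s).pow_left _) z
      rw [e2, padd]
    obtain ⟨x', hx'⟩ := hd1 1 x
    rw [pow_one, pow_one, Tp hb] at hx'
    have k2 : (b.T (gg hd) ^ p ^ (β b' + 1)) x =
        b.T s ((b.T (gg hd) ^ (p ^ (β b' + 1) - p ^ (β (b' - 1) + 1 + m + m))) x') := by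
      rw [psub (b.T (gg hd)) (show p ^ (β (b' - 1) + 1 + m + m) ≤ p ^ (β b' + 1) by omega), hx']
      exact (capp ((T_comm b s (gg hd)).pow_right _) x').symm
    have k3 : b.T s ((b.T (gg hd) ^ (p ^ β b' + p ^ (β (b' - 1) + 2 + 2 * m))) (e b') -
        (b.T (gg hd) ^ (p ^ (β b' + 1) - p ^ (β (b' - 1) + 1 + m + m))) x') = 0 := by
      rw [map_sub, ← k1, ← k2, sub_self]
    have k4 := hd2 _ k3
    rw [Tp hb, map_sub, ← padd, ← padd, sub_eq_zero] at k4
    have e3 : p ^ (β (b' - 1) + 1 + m + m) + (p ^ (β b' + 1) - p ^ (β (b' - 1) + 1 + m + m)) =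
        p ^ (β b' + 1) := by omega
    rw [e3] at k4
    apply hC.pure' b' ((b.T (gg hd) ^ (p ^ (β b' + 1) - 1 - (p ^ (β (b' - 1) + 1 + m + m) +
      (p ^ β b' + p ^ (β (b' - 1) + 2 + 2 * m))))) x')
    rw [psub (b.T (gg hd)) (show p ^ (β (b' - 1) + 1 + m + m) +
      (p ^ β b' + p ^ (β (b' - 1) + 2 + 2 * m)) ≤ p ^ (β b' + 1) - 1 by omega), k4]
    rw [← padd, ← padd, add_comm]
  · -- (R2)
    intro hνh k' hk' hb1 hb2
    have hνk' : ν k = ν k' := (hBf2 k k' hk hk').1 ⟨hb1, hb2⟩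
    obtain ⟨hk'0, hk'w, hk'c⟩ := hIIν k' hk'
    have hcb := hc (ν k) hkν hkw
    obtain ⟨hs1, hs2⟩ := hstd (c (ν k)) (by omega)
    have hb3 := (hBf2 h _ hh hs1).2 (by rw [hs2, hνh])
    refine ⟨p ^ β (c (ν k)) • gg hd, hs1, hb3.1, hb3.2, ?_⟩
    rw [DD_iff, hsum]
    refine AddSubgroup.sum_mem _ fun i hi => ?_
    have hi' := Finset.mem_Icc.1 hi
    by_cases hik : i = ν k
    · rw [hik, sub_self]
      exact AddSubgroup.zero_mem _
    · have := hR1 k' (ν k') hk'c i hi'.1 (by rw [← hνk']; exact hik)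
      exact (Dg b _).sub_mem (Dg_σ _ this) (Dg_σ _ this)

end Pool.Agent.Helper75.Full
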