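import Pool.Agent.Helper30.Full.GoalsG
import Pool.Agent.Helper51.ProP2.Rk

/-!
Packet EXT of MP_ac806c_lc.
-/

set_option autoImplicit false
set_option linter.unusedSectionVars false

namespace Pool.Agent.Helper75.Full

open Pool.Agent.Helper85.ProP Pool.Agent.Helper30.ProP Pool.Agent.Helper30.Full

universe u

section

variable {G : Type u} [Group G] [TopologicalSpace G] [IsTopologicalGroup G]

/-- closed subgroups of pro-p groups are pro-p -/
theorem PP_sub [CompactSpace G] [T2Space G] [TotallyDisconnectedSpace G] {p : ℕ} [Fact p.Prime]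
    (hp : PP p G) (V : Subgroup G) : PP p V := by
  intro U hU hUo
  obtain ⟨W, hW, hWU⟩ := isOpen_induced_iff.1 hUo
  have h1 : (1 : G) ∈ W := by
    have : (1 : V) ∈ (U : Set V) := U.one_mem
    rw [← hWU] at this
    exact this
  obtain ⟨O, hO⟩ := ProfiniteGrp.exist_openNormalSubgroup_sub_open_nhds_of_one hW h1
  have hOn : O.toSubgroup.Normal := O.isNormal'
  obtain ⟨n, hn⟩ := hp O.toSubgroup hOn O.isOpen'
  have h2 : O.toSubgroup.subgroupOf V ≤ U := by
    intro v hv
    have h3 : v ∈ (Subtype.val ⁻¹' W : Set V) := hO hv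
    rw [hWU] at h3
    exact h3
  have h3 : U.index ∣ p ^ n := by
    rw [← hn]
    exact (Subgroup.index_dvd_of_le h2).trans (Subgroup.relIndex_dvd_index_of_normal _ _)
  obtain ⟨k, _, hk⟩ := (Nat.dvd_prime_pow (Fact.out : p.Prime)).1 h3
  exact ⟨k, hk⟩

/-- the group of `q`-th powers of an abelian subgroup -/
def powS (V : Subgroup G) (hV : ∀ a ∈ V, ∀ b ∈ V, a * b = b * a) (q : ℕ) : Subgroup G where
  carrier := {g | ∃ v ∈ V, v ^ q = g}
  one_mem' := ⟨1, V.one_mem, one_pow _⟩
  mul_mem' := by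
    rintro _ _ ⟨v, hv, rfl⟩ ⟨w, hw, rfl⟩
    exact ⟨v * w, V.mul_mem hv hw, (show Commute v w from hV v hv w hw).mul_pow q⟩
  inv_mem' := by
    rintro _ ⟨v, hv, rfl⟩
    exact ⟨v⁻¹, V.inv_mem hv, inv_pow _ _⟩

variable {V : Subgroup G} {hV : ∀ a ∈ V, ∀ b ∈ V, a * b = b * a}

lemma mem_powS {q : ℕ} {g : G} : g ∈ powS V hV q ↔ ∃ v ∈ V, v ^ q = g := Iff.rfl

lemma powS_le {q : ℕ} : powS V hV q ≤ V := by
  rintro _ ⟨v, hv, rfl⟩
  exact V.pow_mem hv q

lemma powS_one : powS V hV 1 = V := by
  ext g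
  rw [mem_powS]
  constructor
  · rintro ⟨v, hv, rfl⟩
    rwa [pow_one]
  · intro hg
    exact ⟨g, hg, pow_one g⟩

lemma powS_normal (hn : V.Normal) (q : ℕ) : (powS V hV q).Normal := by
  refine ⟨?_⟩
  rintro _ ⟨v, hv, rfl⟩ g
  refine ⟨g * v * g⁻¹, hn.conj_mem v hv g, ?_⟩
  rw [conj_pow]

lemma powS_closed [CompactSpace G] [T2Space G] (hc : IsClosed (V : Set G)) (q : ℕ) :
    IsClosed (powS V hV q : Set G) := by
  have h1 : (powS V hV q : Set G) = (fun v : G => v ^ q) '' (V : Set G) := by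
    ext g
    rfl
  rw [h1]
  exact (hc.isCompact.image (continuous_pow q)).isClosed

lemma powS_cm {q : ℕ} {a b : G} (ha : a ∈ powS V hV q) (hb : b ∈ powS V hV q) : cm a b = 1 := by
  have h := hV a (powS_le ha) b (powS_le hb)
  unfold cm
  rw [h]
  group

end

theorem stmtExt : StmtExt.{u} := by
  intro p _ G _ _ _ _ _ _ hp V hVn hVc hV n hF ⟨e, hP⟩
  classical
  obtain ⟨N, hN0, hNn, hN, hstep⟩ := hF
  -- finite generation of the `p ^ e`-th powers
  have hfg : FGmod (⊥ : Subgroup G) (powS V hV (p ^ e)) := by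
    obtain ⟨F, hFV, hFH⟩ := hP
    have hVcomp : CompactSpace V := isCompact_iff_compactSpace.1 hVc.isCompact
    let Fv : Finset V := F.attach.image fun x => ⟨x.1, hFV x.2⟩
    let Q : Subgroup V := (Subgroup.closure (Fv : Set V)).topologicalClosure
    have hQc : IsClosed (Q : Set V) := Subgroup.isClosed_topologicalClosure _
    have hFQ : (Fv : Set V) ⊆ (Q : Set V) :=
      Subgroup.subset_closure.trans (Subgroup.le_topologicalClosure _)
    have hcomm : ∀ a b : V, a * b = b * a := fun a b => Subtype.ext (hV a.1 a.2 b.1 b.2)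
    have hQn : Q.Normal := ⟨fun a ha g => by
      rw [hcomm g a, mul_assoc, mul_inv_cancel, mul_one]; exact ha⟩
    have hQfg : FGmod (⊥ : Subgroup V) Q :=
      ⟨Fv, hFQ, fun H hH _ hFH' => Subgroup.topologicalClosure_minimal _
        ((Subgroup.closure_le _).2 hFH') hH⟩
    obtain ⟨r, hr⟩ := Pool.Agent.Helper51.ProP2.stmtRk p V (PP_sub hp V) ⊥ Q inferInstance
      (by rw [Subgroup.coe_bot]; exact isClosed_singleton) hQn hQc bot_le
      (fun a _ b _ => by
        rw [Subgroup.mem_bot]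
        unfold cm
        rw [hcomm a b]
        group) hQfg
    -- the powers are in Q
    have hpQ : ∀ v ∈ V, ∃ x ∈ Q, (x : G) = v ^ p ^ e := by
      intro v hv
      have hcl : IsClosed ((Q.map V.subtype : Subgroup G) : Set G) := by
        have h6 : ((Q.map V.subtype : Subgroup G) : Set G) = Subtype.val '' (Q : Set V) := rfl
        rw [h6]
        exact hVc.isClosedEmbedding_subtypeVal.isClosedMap _ hQc
      obtain ⟨x, hx, hxe⟩ := hFH (Q.map V.subtype) hcl bot_le (by
        intro f hf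
        refine ⟨⟨f, hFV hf⟩, hFQ ?_, rfl⟩
        exact Finset.mem_coe.2 (Finset.mem_image.2 ⟨⟨f, hf⟩, Finset.mem_attach _ _, rfl⟩)) v hv
      exact ⟨x, hx, hxe⟩
    have hclS : IsClosed (((powS V hV (p ^ e)).subgroupOf V : Subgroup V) : Set V) :=
      (powS_closed (hV := hV) hVc (p ^ e)).preimage continuous_subtype_val
    obtain ⟨t, ht1, ht2⟩ := hr _ hclS
    refine ⟨Finset.univ.image fun i => (t i : G), ?_, ?_⟩
    · intro g hg
      rw [Finset.mem_coe, Finset.mem_image] at hg
      obtain ⟨i, _, rfl⟩ := hg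
      exact (ht1 i).1
    · intro H hH _ hFH'
      rintro g hg
      obtain ⟨v, hv, rfl⟩ := mem_powS.1 hg
      obtain ⟨x, hx, hxe⟩ := hpQ v hv
      have h1 := ht2 (H.subgroupOf V) (hH.preimage continuous_subtype_val)
        (by
          rintro z ⟨_, hz⟩
          rw [Subgroup.mem_bot.1 hz]
          exact Subgroup.one_mem _)
        (fun i => hFH' (Finset.mem_coe.2 (Finset.mem_image.2 ⟨i, Finset.mem_univ _, rfl⟩)))
        (show x ∈ (powS V hV (p ^ e)).subgroupOf V ⊓ Q from ⟨by
          show (x : G) ∈ powS V hV (p ^ e)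
          rw [hxe]; exact hg, hx⟩)
      have h2 : (x : G) ∈ H := h1
      rwa [hxe] at h2
  -- the series
  let N' : ℕ → Subgroup G := fun i => if i = 0 then ⊥ else
    if i ≤ e + 1 then powS V hV (p ^ (e + 1 - i)) else N (i - (e + 1))
  have e0 : N' 0 = ⊥ := if_pos rfl
  have e1 : ∀ i, 1 ≤ i → i ≤ e + 1 → N' i = powS V hV (p ^ (e + 1 - i)) := by
    intro i h1 h2
    show (if i = 0 then ⊥ else if i ≤ e + 1 then powS V hV (p ^ (e + 1 - i)) else
      N (i - (e + 1))) = _
    rw [if_neg (by omega), if_pos h2]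
  have e2 : ∀ j, N' (e + 1 + j) = N j := by
    intro j
    rcases Nat.eq_zero_or_pos j with h | h
    · subst h
      rw [e1 _ (by omega) (by omega), hN0]
      have : e + 1 - (e + 1 + 0) = 0 := by omega
      rw [this, pow_zero, powS_one]
    · show (if e + 1 + j = 0 then ⊥ else if e + 1 + j ≤ e + 1 then
        powS V hV (p ^ (e + 1 - (e + 1 + j))) else N (e + 1 + j - (e + 1))) = _
      rw [if_neg (by omega), if_neg (by omega)]
      congr 1
      omega
  refine ⟨e + 1 + n, N', e0, by rw [e2, hNn], ?_, ?_⟩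
  · intro i
    rcases Nat.eq_zero_or_pos i with h | h
    · subst h
      rw [e0]
      exact ⟨inferInstance, by rw [Subgroup.coe_bot]; exact isClosed_singleton⟩
    · by_cases hi : i ≤ e + 1
      · rw [e1 i h hi]
        exact ⟨powS_normal hVn _, powS_closed hVc _⟩
      · obtain ⟨j, rfl⟩ : ∃ j, i = e + 1 + j := ⟨i - (e + 1), by omega⟩
        rw [e2]
        exact hN j
  · intro i hi
    rcases Nat.eq_zero_or_pos i with h | h
    · subst h
      rw [e0, e1 (0 + 1) (by omega) (by omega)]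
      have : e + 1 - (0 + 1) = e := by omega
      rw [this]
      exact ⟨bot_le, fun a ha b hb => by rw [powS_cm ha hb]; exact Subgroup.one_mem _,
        Or.inr hfg⟩
    · by_cases hie : i ≤ e
      · rw [e1 i h (by omega), e1 (i + 1) (by omega) (by omega)]
        have h1 : e + 1 - (i + 1) = e - i := by omega
        have h2 : e + 1 - i = e - i + 1 := by omega
        rw [h1, h2]
        refine ⟨?_, fun a ha b hb => by rw [powS_cm ha hb]; exact Subgroup.one_mem _, Or.inl ?_⟩
        · intro g hg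
          obtain ⟨v, hv, rfl⟩ := mem_powS.1 hg
          refine mem_powS.2 ⟨v ^ p, V.pow_mem hv p, ?_⟩
          rw [← pow_mul, pow_succ, mul_comm]
        · intro g hg
          obtain ⟨v, hv, rfl⟩ := mem_powS.1 hg
          refine mem_powS.2 ⟨v, hv, ?_⟩
          rw [← pow_mul, pow_succ]
      · obtain ⟨j, rfl⟩ : ∃ j, i = e + 1 + j := ⟨i - (e + 1), by omega⟩
        have h1 : e + 1 + j + 1 = e + 1 + (j + 1) := by omega
        rw [h1, e2, e2]
        exact hstep j (by omega)

end Pool.Agent.Helper75.Full
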