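import Pool.Agent.Helper30.Full.GoalsE

/-!
Packet E3 of MP_ac806c_lc, part 1: divisibility in `ℤ_p^d`, the domination lemma.
-/

set_option autoImplicit false
set_option linter.unusedSectionVars false

namespace Pool.Agent.Helper75.Full

open Pool.Agent.Helper30.Full

universe u

section div

variable {p : ℕ} [Fact p.Prime] {d : ℕ}

/-- `k` is divisible by `p^j` -/
def Dv (k : Fin d → ℤ_[p]) (j : ℕ) : Prop := ∃ k', k = p ^ j • k'

lemma Dv_zero (k : Fin d → ℤ_[p]) : Dv k 0 := ⟨k, by simp⟩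

lemma Dv.mono {k : Fin d → ℤ_[p]} {i j : ℕ} (h : Dv k j) (hij : i ≤ j) : Dv k i := by
  obtain ⟨k', rfl⟩ := h
  refine ⟨p ^ (j - i) • k', ?_⟩
  rw [smul_smul, ← pow_add, Nat.add_sub_cancel' hij]

lemma Dv.sub {k l : Fin d → ℤ_[p]} {j : ℕ} (h : Dv k j) (h' : Dv l j) : Dv (k - l) j := by
  obtain ⟨k', rfl⟩ := h
  obtain ⟨l', rfl⟩ := h'
  exact ⟨k' - l', by rw [smul_sub]⟩

lemma Dv.add {k l : Fin d → ℤ_[p]} {j : ℕ} (h : Dv k j) (h' : Dv l j) : Dv (k + l) j := by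
  obtain ⟨k', rfl⟩ := h
  obtain ⟨l', rfl⟩ := h'
  exact ⟨k' + l', by rw [smul_add]⟩

lemma psmul_inj {i : ℕ} {k l : Fin d → ℤ_[p]} (h : p ^ i • k = p ^ i • l) : k = l := by
  funext a
  have h1 := congrFun h a
  rw [Pi.smul_apply, Pi.smul_apply, nsmul_eq_mul, nsmul_eq_mul] at h1
  have h2 : ((p ^ i : ℕ) : ℤ_[p]) ≠ 0 := by
    rw [Nat.cast_ne_zero]
    exact pow_ne_zero _ (Fact.out : p.Prime).ne_zero
  exact mul_left_cancel₀ h2 h1

lemma Dv_smul {i j : ℕ} {k : Fin d → ℤ_[p]} : Dv (p ^ i • k) (i + j) ↔ Dv k j := by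
  constructor
  · rintro ⟨k', h⟩
    rw [pow_add, mul_smul] at h
    exact ⟨k', psmul_inj h⟩
  · rintro ⟨k', rfl⟩
    exact ⟨k', by rw [smul_smul, ← pow_add]⟩

lemma exists_level {k : Fin d → ℤ_[p]} (hk : k ≠ 0) : ∃ j, Dv k j ∧ ¬ Dv k (j + 1) := by
  by_contra hcon
  push Not at hcon
  have hall : ∀ j, Dv k j := by
    intro j
    induction j with
    | zero => exact Dv_zero k
    | succ j ih => exact hcon j ih
  apply hk
  funext i
  by_contra hne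
  have hne' : k i ≠ 0 := hne
  obtain ⟨n, hn⟩ := FiniteMultiplicity.of_prime_left (PadicInt.prime_p (p := p)) hne'
  obtain ⟨k', hk'⟩ := hall (n + 1)
  apply hn
  refine ⟨k' i, ?_⟩
  have := congrFun hk' i
  rw [this, Pi.smul_apply, nsmul_eq_mul, Nat.cast_pow]

/-- the first basis vector -/
noncomputable def gg (hd : 0 < d) : Fin d → ℤ_[p] := Pi.single ⟨0, hd⟩ 1

lemma not_Dv_gg (hd : 0 < d) : ¬ Dv (gg (p := p) hd) 1 := by
  rintro ⟨k', hk'⟩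
  have h1 := congrFun hk' ⟨0, hd⟩
  unfold gg at h1
  rw [Pi.single_eq_same, Pi.smul_apply, nsmul_eq_mul, pow_one] at h1
  have h2 : IsUnit ((p : ℕ) : ℤ_[p]) := IsUnit.of_mul_eq_one _ h1.symm
  exact (PadicInt.prime_p (p := p)).not_isUnit h2

lemma gg_ne_zero (hd : 0 < d) : gg (p := p) hd ≠ 0 := by
  intro h
  apply not_Dv_gg (p := p) hd
  rw [h]
  exact ⟨0, by simp⟩

lemma not_Dv_pgg (hd : 0 < d) (i : ℕ) : ¬ Dv (p ^ i • gg (p := p) hd) (i + 1) := by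
  rw [Dv_smul]
  exact not_Dv_gg hd

lemma pgg_ne_zero (hd : 0 < d) (i : ℕ) : p ^ i • gg (p := p) hd ≠ 0 := by
  intro h
  apply not_Dv_pgg (p := p) hd i
  rw [h]
  exact ⟨0, by simp⟩

end div

section alg

variable {p : ℕ} [Fact p.Prime] {d : ℕ} {X : Type u} [AddCommGroup X] [TopologicalSpace X]
  {b : Act p d X}

lemma capp {f g : AddMonoid.End X} (h : Commute f g) (x : X) : f (g x) = g (f x) :=
  congrArg (fun f : AddMonoid.End X => f x) h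

lemma padd (f : AddMonoid.End X) (m n : ℕ) (x : X) : (f ^ (m + n)) x = (f ^ m) ((f ^ n) x) := by
  rw [pow_add]; rfl

lemma psub (f : AddMonoid.End X) {m n : ℕ} (h : m ≤ n) (x : X) :
    (f ^ n) x = (f ^ (n - m)) ((f ^ m) x) := by
  rw [← padd, Nat.sub_add_cancel h]

lemma Tp (hb : HypE b) (j : ℕ) (k : Fin d → ℤ_[p]) : b.T (p ^ j • k) = b.T k ^ p ^ j := by
  obtain ⟨P, hP⟩ := T_ppow b j k
  rw [hP]
  have : p • (b.T k * (Polynomial.aeval (b.T k)) P) = 0 := by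
    ext x
    exact hb.kill _
  rw [this, add_zero]

lemma Tp1 (hb : HypE b) (k : Fin d → ℤ_[p]) : b.T (p • k) = b.T k ^ p := by
  have h := Tp hb 1 k
  rwa [pow_one] at h

/-- if `A X ⊆ B X` then `A^n X ⊆ B^n X` -/
lemma pow_range {A B : AddMonoid.End X} (hAB : Commute A B) (h : ∀ x, ∃ y, A x = B y) (n : ℕ) :
    ∀ x, ∃ y, (A ^ n) x = (B ^ n) y := by
  induction n with
  | zero => intro x; exact ⟨x, rfl⟩
  | succ n ih =>
    intro x
    obtain ⟨y, hy⟩ := ih x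
    obtain ⟨y', hy'⟩ := h y
    refine ⟨y', ?_⟩
    have e1 : (A ^ (n + 1)) x = A ((A ^ n) x) := by rw [pow_succ']; rfl
    have e2 : (B ^ (n + 1)) y' = (B ^ n) (B y') := by rw [pow_succ]; rfl
    rw [e1, hy, capp (hAB.pow_right n), hy', ← e2]

lemma pow_ker {A B : AddMonoid.End X} (hAB : Commute A B) (h : ∀ x, B x = 0 → A x = 0) (n : ℕ) :
    ∀ x, (B ^ n) x = 0 → (A ^ n) x = 0 := by
  induction n with
  | zero => intro x hx; exact hx
  | succ n ih =>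
    intro x hx
    have e1 : (A ^ (n + 1)) x = (A ^ n) (A x) := by rw [pow_succ]; rfl
    have e2 : (B ^ (n + 1)) x = B ((B ^ n) x) := by rw [pow_succ']; rfl
    rw [e1]
    apply ih
    rw [← capp (hAB.pow_right n)]
    apply h
    rw [← e2, hx]

/-- the domination lemma -/
lemma domA (hb : HypE b) {m : ℕ} (hU : UniE b m) {k l : Fin d → ℤ_[p]} {j : ℕ}
    (hk : ¬ Dv k (j + 1)) (hl : Dv l (j + m)) :
    (∀ c x, ∃ y, (b.T l ^ c) x = (b.T k ^ c) y) ∧ ∀ x, b.T k x = 0 → b.T l x = 0 := by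
  have hk0 : k ≠ 0 := by
    rintro rfl
    exact hk ⟨0, by simp⟩
  obtain ⟨j0, ⟨k', rfl⟩, hj0⟩ := exists_level hk0
  have hj : j0 ≤ j := by
    by_contra hcon
    exact hk (Dv.mono ⟨k', rfl⟩ (by omega))
  have hk' : ∀ u', k' ≠ p • u' := by
    rintro u' rfl
    apply hj0
    refine ⟨u', ?_⟩
    rw [pow_succ, mul_smul]
  obtain ⟨l', rfl⟩ := hl
  have e1 : p ^ (j + m) • l' = p ^ j0 • (p ^ m • (p ^ (j - j0) • l')) := by
    rw [smul_smul, smul_smul, ← pow_add, ← pow_add]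
    congr 2
    omega
  obtain ⟨h1, h2⟩ := hU k' hk' (p ^ (j - j0) • l')
  rw [e1, Tp hb j0, Tp hb j0]
  have hc := T_comm b (p ^ m • (p ^ (j - j0) • l')) k'
  refine ⟨fun c x => ?_, pow_ker hc h2 _⟩
  rw [← pow_mul, ← pow_mul]
  exact pow_range hc h1 _ x

/-- the group `D_k` -/
noncomputable def Dg (b : Act p d X) (k : Fin d → ℤ_[p]) : AddSubgroup X :=
  (AddMonoidHom.range (b.T (p • k))).comap (b.T k)

lemma mem_Dg {k : Fin d → ℤ_[p]} {x : X} : x ∈ Dg b k ↔ ∃ z, b.T (p • k) z = b.T k x := Iff.rfl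

lemma DD_iff {k : Fin d → ℤ_[p]} {x : X} : DD b 0 k x ↔ x ∈ Dg b k := by
  rw [mem_Dg]
  constructor
  · rintro ⟨x', x'', z, h1, h2⟩
    rw [T_zero] at h1
    have : x = x' := by rw [h1]; simp
    rw [this]
    exact ⟨z, h2.symm⟩
  · rintro ⟨z, hz⟩
    exact ⟨x, 0, z, by simp, hz.symm⟩

lemma Dg_of_zero {k : Fin d → ℤ_[p]} {x : X} (h : b.T k x = 0) : x ∈ Dg b k :=
  mem_Dg.2 ⟨0, by rw [h, map_zero]⟩

lemma Dg_σ {k : Fin d → ℤ_[p]} (l : Fin d → ℤ_[p]) {x : X} (h : x ∈ Dg b k) :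
    b.σ l x ∈ Dg b k := by
  obtain ⟨z, hz⟩ := mem_Dg.1 h
  exact mem_Dg.2 ⟨b.σ l z, by rw [T_comm_σ_apply, T_comm_σ_apply, hz]⟩

/-- elements of `T_k^(p-1) X` are in `D_k` -/
lemma Dg_of_pow (hb : HypE b) {k : Fin d → ℤ_[p]} {x : X}
    (h : ∃ y, x = (b.T k ^ (p - 1)) y) : x ∈ Dg b k := by
  obtain ⟨y, rfl⟩ := h
  refine mem_Dg.2 ⟨y, ?_⟩
  rw [Tp1 hb]
  have hp := (Fact.out : p.Prime).pos
  have e1 : (b.T k ^ p) y = (b.T k ^ (1 + (p - 1))) y := by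
    congr 2
    omega
  rw [e1, padd, pow_one]

/-- elements `T_g^n y` with `n` large compared to the level of `k` are in `D_k` -/
lemma Dg_big (hb : HypE b) (hd : 0 < d) {m : ℕ} (hU : UniE b m) {k : Fin d → ℤ_[p]} {j n : ℕ}
    (hk : ¬ Dv k (j + 1)) (hn : (p - 1) * p ^ (j + m) ≤ n) (y : X) :
    (b.T (gg hd) ^ n) y ∈ Dg b k := by
  apply Dg_of_pow hb
  have h1 := (domA hb hU hk (l := p ^ (j + m) • gg hd) ⟨gg hd, rfl⟩).1 (p - 1)
  obtain ⟨z, hz⟩ := h1 ((b.T (gg hd) ^ (n - (p - 1) * p ^ (j + m))) y)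
  refine ⟨z, ?_⟩
  rw [← hz, Tp hb, ← pow_mul, ← padd]
  congr 2
  rw [mul_comm (p ^ (j + m)) (p - 1)]
  omega

end alg

end Pool.Agent.Helper75.Full
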